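import Pool.Agent.Helper20.QD.St5

/-!
# Project QD, part B (MP_d112a4_gt), module SEX: boundary values
-/

set_option autoImplicit false

open Filter Topology Matrix Set Metric
open scoped ComplexConjugate ComplexOrder

namespace Pool.Agent.Helper7.QD

open Pool.Agent.Helper35.PM Pool.Agent.Helper20.QD

private theorem smem_DD {z : ℂ} : z ∈ DD ↔ ‖z‖ ≤ 1 := by
  rw [mem_closedBall, dist_zero_right]

private theorem smem_D {z : ℂ} : z ∈ D ↔ ‖z‖ < 1 := by
  rw [mem_ball, dist_zero_right]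

private theorem smem_SS {z : ℂ} : z ∈ SS ↔ ‖z‖ = 1 := by
  rw [mem_sphere, dist_zero_right]

/-- the image of a point of a compact subset of the disc is close to the image of the centre -/
private theorem su_est (A : SL) (hA : IsSU A) (u : ℂ) (r : ℝ) (hr : r < 1) (hu : ‖u‖ ≤ r)
    (hden : den A u ≠ 0) :
    ‖mob A u - mob A 0‖ ≤ 2 * (1 - ‖mob A u‖ ^ 2) / (1 - r ^ 2) := by
  obtain ⟨h11, h10⟩ := hA
  have hr0 : 0 ≤ r := (norm_nonneg u).trans hu
  have hdet : (A : Mat) 0 0 * (A : Mat) 1 1 - (A : Mat) 0 1 * (A : Mat) 1 0 = 1 := by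
    have := A.2
    rwa [Matrix.det_fin_two] at this
  rw [h11, h10] at hdet
  rw [den, h11, h10] at hden
  rw [mob, mob, h11, h10]
  generalize (A : Mat) 0 0 = a at *
  generalize (A : Mat) 0 1 = b at *
  have hdet' : Complex.normSq a - Complex.normSq b = 1 := by
    rw [Complex.mul_conj, Complex.mul_conj] at hdet
    exact_mod_cast hdet
  have hb0 : 0 ≤ Complex.normSq b := Complex.normSq_nonneg b
  have ha : a ≠ 0 := by
    rintro rfl
    rw [Complex.normSq_zero] at hdet'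
    linarith
  have hca : conj a ≠ 0 := (map_ne_zero _).2 ha
  rw [mul_zero, zero_add, mul_zero, zero_add]
  have e1 : (a * u + b) / (conj b * u + conj a) - b / conj a =
      u / ((conj b * u + conj a) * conj a) := by
    rw [div_sub_div _ _ hden hca]
    congr 1
    linear_combination u * hdet
  have e2 : Complex.normSq (conj b * u + conj a) - Complex.normSq (a * u + b) =
      1 - Complex.normSq u := by
    have : Complex.normSq (conj b * u + conj a) - Complex.normSq (a * u + b) =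
        (Complex.normSq a - Complex.normSq b) * (1 - Complex.normSq u) := by
      simp only [Complex.normSq_apply, Complex.add_re, Complex.add_im, Complex.mul_re,
        Complex.mul_im, Complex.conj_re, Complex.conj_im]
      ring
    rw [this, hdet', one_mul]
  have hab : ‖b‖ ≤ ‖a‖ := by
    rw [← Complex.sq_norm, ← Complex.sq_norm] at hdet'
    nlinarith [norm_nonneg a, norm_nonneg b]
  have hd2 : ‖conj b * u + conj a‖ ≤ 2 * ‖a‖ := by
    refine (norm_add_le _ _).trans ?_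
    rw [norm_mul, RCLike.norm_conj, RCLike.norm_conj]
    have h1 : ‖u‖ ≤ 1 := hu.trans hr.le
    nlinarith [norm_nonneg b, norm_nonneg u]
  have hdpos : 0 < ‖conj b * u + conj a‖ := norm_pos_iff.2 hden
  have hapos : 0 < ‖a‖ := norm_pos_iff.2 ha
  rw [← Complex.sq_norm, ← Complex.sq_norm, ← Complex.sq_norm] at e2
  rw [e1, norm_div, norm_mul, RCLike.norm_conj, norm_div, div_pow]
  have hr2 : 0 < 1 - r ^ 2 := by nlinarith
  have e3 : 1 - ‖a * u + b‖ ^ 2 / ‖conj b * u + conj a‖ ^ 2 =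
      (1 - ‖u‖ ^ 2) / ‖conj b * u + conj a‖ ^ 2 := by
    rw [eq_div_iff (by positivity), sub_mul, div_mul_cancel₀ _ (by positivity)]
    linarith
  rw [e3]
  set d := ‖conj b * u + conj a‖ with hd
  have h1 : ‖u‖ / (d * ‖a‖) ≤ 2 / d ^ 2 := by
    rw [div_le_div_iff₀ (by positivity) (by positivity)]
    have h2 : ‖u‖ ≤ 1 := hu.trans hr.le
    have h3 : ‖u‖ * d ^ 2 ≤ 1 * d ^ 2 := mul_le_mul_of_nonneg_right h2 (by positivity)
    nlinarith
  refine h1.trans ?_
  rw [mul_div_assoc', div_div, div_le_div_iff₀ (by positivity) (by positivity)]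
  have h4 : 1 - r ^ 2 ≤ 1 - ‖u‖ ^ 2 := by nlinarith [norm_nonneg u]
  nlinarith [mul_le_mul_of_nonneg_right h4 (sq_nonneg d)]

private theorem sex_tri (hLFR : StLFR) (P Q R : Mat) : fr P R ≤ 2 * (fr Q P + fr Q R) := by
  obtain ⟨h1, h2, -, -⟩ := hLFR
  have h := h2 P Q R
  have a := Real.sq_sqrt (h1 P R).1
  have b := Real.sq_sqrt (h1 P Q).1
  have c := Real.sq_sqrt (h1 Q R).1
  have d := (h1 P Q).2.1
  have a' := Real.sqrt_nonneg (fr P R)
  have h3 : Real.sqrt (fr P R) ^ 2 ≤ (Real.sqrt (fr P Q) + Real.sqrt (fr Q R)) ^ 2 :=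
    pow_le_pow_left₀ a' h 2
  nlinarith [sq_nonneg (Real.sqrt (fr P Q) - Real.sqrt (fr Q R))]

/-- a bound of the distance in the plane by the distance on the sphere -/
private theorem sex_dist (hLQC : StLQC) (M : ℝ) (hM : 0 ≤ M) (z w : ℂ) (hz : ‖z‖ ≤ M)
    (hw : ‖w‖ ≤ M) : ‖z - w‖ ^ 2 ≤ (1 + M ^ 2) ^ 2 * fr (Qp z) (Qp w) := by
  obtain ⟨-, -, -, h4, -⟩ := hLQC
  rw [h4, mul_div_assoc', le_div_iff₀ (by positivity)]
  have h1 : ‖z‖ ^ 2 ≤ M ^ 2 := pow_le_pow_left₀ (norm_nonneg _) hz 2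
  have h2 : ‖w‖ ^ 2 ≤ M ^ 2 := pow_le_pow_left₀ (norm_nonneg _) hw 2
  have h3 : (1 + ‖z‖ ^ 2) * (1 + ‖w‖ ^ 2) ≤ (1 + M ^ 2) ^ 2 := by
    rw [pow_two (1 + M ^ 2)]
    exact mul_le_mul (by linarith) (by linarith) (by positivity) (by positivity)
  have h5 : ‖z - w‖ ^ 2 * ((1 + ‖z‖ ^ 2) * (1 + ‖w‖ ^ 2)) ≤ ‖z - w‖ ^ 2 * (1 + M ^ 2) ^ 2 :=
    mul_le_mul_of_nonneg_left h3 (by positivity)
  have h6 : 0 ≤ ‖z - w‖ ^ 2 * (1 + M ^ 2) ^ 2 := by positivity
  linarith

theorem hSEX (hSUB : StSUB) (hLFR : StLFR) (hLQC : StLQC) (hLLA : StLLA) (hFCO : StFCO) :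
    StSEX := by
  intro Γ _ ρ σ f hg hf hfi hfim hσ heq
  obtain ⟨hLc, -, hL3, -, hL5⟩ := hLLA Γ ρ hg.cc.discrete hg.inf
  obtain ⟨b, hbc, hbb, hbe, hbd⟩ := hFCO Γ σ ρ hσ hg.cc hg.inf
  obtain ⟨r, hr1, hr⟩ := hσ.cocompact
  have hr0 : 0 ≤ r := by
    obtain ⟨γ, hγ⟩ := hr 0 (smem_D.2 (by rw [norm_zero]; exact one_pos))
    exact (norm_nonneg _).trans hγ
  have hDsub : D ⊆ DD := ball_subset_closedBall
  have hSsub : SS ⊆ DD := sphere_subset_closedBall
  have hsplit : ∀ z ∈ DD, z ∈ D ∨ z ∈ SS := by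
    intro z hz
    rw [smem_DD] at hz
    rcases hz.lt_or_eq with h | h
    · exact Or.inl (smem_D.2 h)
    · exact Or.inr (smem_SS.2 h)
  have hrD : closedBall (0 : ℂ) r ⊆ D := closedBall_subset_ball hr1
  have hSU := fun γ => hSUB.1 (σ γ) (hσ.su γ)
  set F : ℂ → ℂ := fun z => if ‖z‖ < 1 then f z else b z with hFdef
  have hFD : ∀ z ∈ D, F z = f z := fun z hz => if_pos (smem_D.1 hz)
  have hFS : ∀ z ∈ SS, F z = b z := fun z hz => if_neg (by rw [smem_SS.1 hz]; exact lt_irrefl 1)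
  -- the compact set
  set K : Set ℂ := f '' closedBall (0 : ℂ) r with hK
  have hKc : IsCompact K :=
    (isCompact_closedBall (0 : ℂ) r).image_of_continuousOn (hf.continuousOn.mono hrD)
  have hKi : K ⊆ inn (Lam ρ) := by
    rw [← hfim]
    exact image_mono hrD
  have hKd : Disjoint K (Lam ρ) := by
    rw [Set.disjoint_left]
    intro z hz
    exact (hKi hz).1
  obtain ⟨M, hM0, hM⟩ : ∃ M : ℝ, 0 ≤ M ∧ ∀ z ∈ Lam ρ, ‖z‖ ≤ M := by
    obtain ⟨M, hM⟩ := hLc.isBounded.exists_norm_le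
    exact ⟨max M 0, le_max_right _ _, fun z hz => (hM z hz).trans (le_max_left _ _)⟩
  -- continuity
  have hcontS : ∀ ζ ∈ SS, ContinuousWithinAt F DD ζ := by
    intro ζ hζ
    have hbζ : b ζ ∈ Lam ρ := hbb.mapsTo hζ
    rw [ContinuousWithinAt, hFS ζ hζ, Metric.tendsto_nhds]
    intro ε hε
    set C : ℝ := (1 + M ^ 2) ^ 2 with hC
    have hCpos : 0 < C := by positivity
    set e : ℝ := min (ε / 2) (ε ^ 2 / (32 * C)) with he
    have hepos : 0 < e := lt_min (by positivity) (by positivity)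
    have he1 : e ≤ ε / 2 := min_le_left _ _
    have he2 : C * e ≤ ε ^ 2 / 32 := by
      have : e ≤ ε ^ 2 / (32 * C) := min_le_right _ _
      rw [le_div_iff₀ (by positivity)] at this
      linarith
    have hBad := hL5 K hKc hKd e hepos
    set Bad : Set Γ := {γ : Γ | ¬ ∃ l ∈ Lam ρ, fr (orb ρ γ) (Qp l) < e ∧
      ∀ z ∈ K, den (ρ γ) z ≠ 0 ∧ ‖mob (ρ γ) z - l‖ < e} with hBadd
    obtain ⟨δ, hδ, hδ'⟩ := hbd ζ hζ e hepos
    -- neighbourhoods
    have hN1 : ∀ᶠ z in 𝓝[DD] ζ, z ∉ ⋃ γ ∈ Bad, mob (σ γ) '' closedBall (0 : ℂ) r := by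
      have hcomp : IsCompact (⋃ γ ∈ Bad, mob (σ γ) '' closedBall (0 : ℂ) r) := by
        refine hBad.isCompact_biUnion fun γ _ => ?_
        refine (isCompact_closedBall (0 : ℂ) r).image_of_continuousOn ?_
        intro z hz
        have hd := (hSU γ).2.1 z (hDsub (hrD hz))
        exact (hSUB.2.2.2.2.1 (σ γ) z hd).continuousAt.continuousWithinAt
      have hnot : ζ ∉ ⋃ γ ∈ Bad, mob (σ γ) '' closedBall (0 : ℂ) r := by
        intro h
        obtain ⟨γ, -, z, hz, hzζ⟩ := mem_iUnion₂.1 h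
        have h1 : mob (σ γ) z ∈ D := (hSU γ).2.2.1.mapsTo (hrD hz)
        rw [hzζ, smem_D, smem_SS.1 hζ] at h1
        exact lt_irrefl _ h1
      exact mem_nhdsWithin_of_mem_nhds (hcomp.isClosed.isOpen_compl.mem_nhds hnot)
    have hN2 : ∀ᶠ z in 𝓝[DD] ζ, 2 * (1 - ‖z‖ ^ 2) / (1 - r ^ 2) + ‖z - ζ‖ < δ := by
      have hc : Continuous (fun z : ℂ => 2 * (1 - ‖z‖ ^ 2) / (1 - r ^ 2) + ‖z - ζ‖) := by
        fun_prop
      have h1 : Tendsto (fun z : ℂ => 2 * (1 - ‖z‖ ^ 2) / (1 - r ^ 2) + ‖z - ζ‖) (𝓝 ζ)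
          (𝓝 (2 * (1 - ‖ζ‖ ^ 2) / (1 - r ^ 2) + ‖ζ - ζ‖)) := hc.tendsto ζ
      rw [smem_SS.1 hζ] at h1
      have h2 : 2 * (1 - (1 : ℝ) ^ 2) / (1 - r ^ 2) + ‖ζ - ζ‖ = 0 := by simp
      rw [h2] at h1
      exact mem_nhdsWithin_of_mem_nhds (h1.eventually_lt_const hδ)
    have hN3 : ∀ᶠ z in 𝓝[DD] ζ, z ∈ SS → dist (b z) (b ζ) < ε := by
      have h1 : ∀ᶠ z in 𝓝[SS] ζ, dist (b z) (b ζ) < ε := Metric.tendsto_nhds.1 (hbc ζ hζ) ε hε
      rw [eventually_nhdsWithin_iff] at h1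
      exact mem_nhdsWithin_of_mem_nhds h1
    filter_upwards [hN1, hN2, hN3, self_mem_nhdsWithin] with z hz1 hz2 hz3 hzDD
    rcases hsplit z hzDD with hzD | hzS
    · rw [hFD z hzD]
      obtain ⟨γ', hγ'⟩ := hr z hzD
      have hzu : mob (σ γ'⁻¹) (mob (σ γ') z) = z := by
        rw [map_inv]
        exact (hSU γ').2.2.2.2 z (hDsub hzD)
      set u := mob (σ γ') z with hu
      set γ := γ'⁻¹ with hγ
      have hur : u ∈ closedBall (0 : ℂ) r := by
        rw [mem_closedBall, dist_zero_right]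
        exact hγ'
      have huD : u ∈ D := hrD hur
      have hgood : γ ∉ Bad := by
        intro h
        apply hz1
        exact mem_iUnion₂.2 ⟨γ, h, u, hur, hzu⟩
      have hgood' : ∃ l ∈ Lam ρ, fr (orb ρ γ) (Qp l) < e ∧
          ∀ z ∈ K, den (ρ γ) z ≠ 0 ∧ ‖mob (ρ γ) z - l‖ < e := by
        by_contra h
        exact hgood h
      obtain ⟨l, hl, hl1, hl2⟩ := hgood'
      have h1 : ‖mob (σ γ) 0 - ζ‖ < δ := by
        have h2 := su_est (σ γ) (hσ.su γ) u r hr1 hγ' ((hSU γ).2.1 u (hDsub huD))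
        rw [hzu] at h2
        have h3 : mob (σ γ) 0 - ζ = -(z - mob (σ γ) 0) + (z - ζ) := by ring
        rw [h3]
        refine (norm_add_le _ _).trans_lt ?_
        rw [norm_neg]
        linarith
      have h2 := hδ' γ h1
      have h3 := sex_tri hLFR (Qp l) (orb ρ γ) (Qp (b ζ))
      have h4 := sex_dist hLQC M hM0 l (b ζ) (hM l hl) (hM _ hbζ)
      have h5 : ‖l - b ζ‖ ^ 2 < (ε / 2) ^ 2 := by
        have h6 : C * fr (Qp l) (Qp (b ζ)) ≤ C * (4 * e) :=
          mul_le_mul_of_nonneg_left (by linarith) hCpos.le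
        have h7 : ‖l - b ζ‖ ^ 2 ≤ C * (4 * e) := h4.trans h6
        have h8 : C * (4 * e) ≤ ε ^ 2 / 8 := by linarith
        nlinarith
      have h6 : ‖l - b ζ‖ < ε / 2 := lt_of_pow_lt_pow_left₀ 2 (by positivity) h5
      have h7 : ‖f z - l‖ < ε / 2 := by
        have h8 : f z = mob (ρ γ) (f u) := by
          rw [← heq γ u huD, hzu]
        rw [h8]
        exact lt_of_lt_of_le (hl2 (f u) ⟨u, hur, rfl⟩).2 he1
      rw [dist_eq_norm]
      have h8 : f z - b ζ = (f z - l) + (l - b ζ) := by ring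
      rw [h8]
      refine (norm_add_le _ _).trans_lt ?_
      linarith
    · rw [hFS z hzS]
      exact hz3 hzS
  have hcont : ContinuousOn F DD := by
    intro z hz
    rcases hsplit z hz with hzD | hzS
    · have h1 : ContinuousAt f z := (hf z hzD).continuousWithinAt.continuousAt
        (isOpen_ball.mem_nhds hzD)
      have h2 : F =ᶠ[𝓝 z] f := by
        filter_upwards [isOpen_ball.mem_nhds hzD] with w hw
        exact hFD w hw
      exact (h1.congr h2.symm).continuousWithinAt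
    · exact hcontS z hzS
  refine ⟨F, hFD, ?_⟩
  exact
    { cont := hcont
      hol := hf.congr fun z hz => hFD z hz
      bij := by
        have h1 : BijOn f D (inn (Lam ρ)) := by
          rw [← hfim]
          exact hfi.bijOn_image
        exact h1.congr fun z hz => (hFD z hz).symm
      bijS := hbb.congr fun z hz => (hFS z hz).symm
      fuch := hσ
      eqv := fun γ z hz => by
        rcases hsplit z hz with hzD | hzS
        · have h1 : f z ∈ inn (Lam ρ) := hfim ▸ mem_image_of_mem f hzD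
          rw [hFD z hzD, hFD _ ((hSU γ).2.2.1.mapsTo hzD)]
          exact ⟨(hg.side γ (f z) h1).1, heq γ z hzD⟩
        · rw [hFS z hzS, hFS _ ((hSU γ).2.2.2.1.mapsTo hzS)]
          exact ⟨(hL3 γ (b z) (hbb.mapsTo hzS)).1, hbe γ z hzS⟩ }

end Pool.Agent.Helper7.QD
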