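import Pool.Agent.Helper20.QD.St5

/-!
# Project QD, part B (MP_d112a4_gt), module WMA: assembly of the quasiconformal model
-/

set_option autoImplicit false

open Filter Topology Matrix Set Metric
open scoped ComplexConjugate ComplexOrder

namespace Pool.Agent.Helper7.QD

open Pool.Agent.Helper35.PM Pool.Agent.Helper20.QD

private theorem mem_DD {z : ℂ} : z ∈ DD ↔ ‖z‖ ≤ 1 := by
  rw [mem_closedBall, dist_zero_right]

private theorem mem_D {z : ℂ} : z ∈ D ↔ ‖z‖ < 1 := by
  rw [mem_ball, dist_zero_right]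

private theorem mem_SS {z : ℂ} : z ∈ SS ↔ ‖z‖ = 1 := by
  rw [mem_sphere, dist_zero_right]

/-- derivative of a composition with a holomorphic function -/
private theorem wma_chain (f E : ℂ → ℂ) (z : ℂ) (hf : DifferentiableAt ℂ f (E z))
    (hE : DifferentiableAt ℝ E z) (W : ℂ → ℂ) (hW : W =ᶠ[𝓝 z] fun z => f (E z)) :
    dz W z = deriv f (E z) * dz E z ∧ dzb W z = deriv f (E z) * dzb E z := by
  have h1 : HasFDerivAt W ((fderiv ℝ f (E z)).comp (fderiv ℝ E z)) z := by
    have h2 : HasFDerivAt (fun z => f (E z)) ((fderiv ℝ f (E z)).comp (fderiv ℝ E z)) z :=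
      ((hf.restrictScalars ℝ).hasFDerivAt).comp z hE.hasFDerivAt
    exact h2.congr_of_eventuallyEq hW
  have h3 : ∀ v : ℂ, fderiv ℝ f (E z) v = deriv f (E z) * v := by
    intro v
    have h4 : fderiv ℝ f (E z) = (fderiv ℂ f (E z)).restrictScalars ℝ :=
      hf.fderiv_restrictScalars ℝ
    rw [h4, ContinuousLinearMap.coe_restrictScalars', fderiv_eq_smul_deriv, smul_eq_mul, mul_comm]
  have h5 : ∀ v : ℂ, fderiv ℝ W z v = deriv f (E z) * fderiv ℝ E z v := by
    intro v
    rw [h1.fderiv, ContinuousLinearMap.comp_apply, h3]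
  constructor
  · rw [dz, dz, h5, h5]
    ring
  · rw [dzb, dzb, h5, h5]
    ring

theorem hWMA (hSUB : StSUB) (hRIJ : StRIJ) (hTJ1 : StTJ1) (hSID : StSID) (hWOU : StWOU)
    (hWDG : StWDG) (hDET : StDET) (hDDI : StDDI) : StWMA := by
  intro Γ _ ρ hg
  obtain ⟨β, hβ⟩ := hg.jordan
  obtain ⟨p, hp⟩ := (hTJ1 β (Lam ρ) hβ).1
  obtain ⟨τ, f, hone, -⟩ := hSID Γ ρ hg p hp
  obtain ⟨σ, F, hout⟩ := hWOU Γ ρ hg
  obtain ⟨φ, hφ, hφF, hφe⟩ := hWDG Γ ρ σ τ f F hg hone hout
  obtain ⟨E, hEc, hES, hEb, hE1, hEj, hEn⟩ := hDET φ hφ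
  obtain ⟨a, c, ha, hasy⟩ := hout.asy
  have hmobD : ∀ γ, ∀ z ∈ D, mob (σ γ) z ∈ D := fun γ =>
    (hSUB.1 (σ γ) (hout.fuch.su γ)).2.2.1.mapsTo
  have hmobS : ∀ γ, ∀ z ∈ SS, mob (σ γ) z ∈ SS := fun γ =>
    (hSUB.1 (σ γ) (hout.fuch.su γ)).2.2.2.1.mapsTo
  have hsplit : ∀ z ∈ DD, z ∈ D ∨ z ∈ SS := by
    intro z hz
    rw [mem_DD] at hz
    rcases hz.lt_or_eq with h | h
    · exact Or.inl (mem_D.2 h)
    · exact Or.inr (mem_SS.2 h)
  have hDsub : D ⊆ DD := ball_subset_closedBall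
  have hSsub : SS ⊆ DD := sphere_subset_closedBall
  have heD : ∀ γ, ∀ z ∈ D, E (mob (σ γ) z) = mob (τ γ) (E z) := fun γ =>
    hEn (τ γ) (σ γ) (hone.fuch.su γ) (hout.fuch.su γ) (hφe γ)
  have heDD : ∀ γ, ∀ z ∈ DD, E (mob (σ γ) z) = mob (τ γ) (E z) := by
    intro γ z hz
    rcases hsplit z hz with h | h
    · exact heD γ z h
    · rw [hES _ (hmobS γ z h), hES z h, hφe γ z h]
  obtain ⟨k, hk0, hk1, hk⟩ := hDDI Γ σ τ E hout.fuch hone.fuch.su hEb.mapsTo hE1 hEj heD
  have hEmS : MapsTo E SS SS := by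
    intro ζ hζ
    rw [hES ζ hζ]
    exact hφ.2.2.1 hζ
  have hEmDD : MapsTo E DD DD := by
    intro z hz
    rcases hsplit z hz with h | h
    · exact hDsub (hEb.mapsTo h)
    · exact hSsub (hEmS h)
  have hEsS : SurjOn E SS SS := by
    have h1 : IsCompact (E '' DD) := (isCompact_closedBall (0 : ℂ) 1).image_of_continuousOn hEc
    have h2 : DD ⊆ E '' DD := by
      have h3 : D ⊆ E '' DD := by
        intro w hw
        obtain ⟨z, hz, rfl⟩ := hEb.surjOn hw
        exact ⟨z, hDsub hz, rfl⟩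
      have h4 : closure D ⊆ E '' DD := closure_minimal h3 h1.isClosed
      rwa [closure_ball (0 : ℂ) one_ne_zero] at h4
    intro w hw
    obtain ⟨z, hz, hzw⟩ := h2 (hSsub hw)
    rcases hsplit z hz with h | h
    · exfalso
      have h5 : E z ∈ D := hEb.mapsTo h
      rw [hzw, mem_D] at h5
      rw [mem_SS] at hw
      linarith
    · exact ⟨z, h, hzw⟩
  have hEiS : InjOn E SS := by
    intro x hx y hy hxy
    rw [hES x hx, hES y hy] at hxy
    exact hφ.2.1 hx hy hxy
  have hEbS : BijOn E SS SS := ⟨hEmS, hEiS, hEsS⟩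
  -- the map
  set W : ℂ → ℂ := fun z => if ‖z‖ ≤ 1 then f (E z) else F z with hWdef
  have hWin : ∀ z ∈ DD, W z = f (E z) := fun z hz => if_pos (mem_DD.1 hz)
  have hWout : ∀ z : ℂ, 1 ≤ ‖z‖ → W z = F z := by
    intro z hz
    by_cases h : ‖z‖ ≤ 1
    · have h1 : z ∈ SS := mem_SS.2 (le_antisymm h hz)
      rw [hWin z (mem_DD.2 h), hES z h1, hφF z h1]
    · exact if_neg h
  have hWcont : Continuous W := by
    refine continuous_if_le continuous_norm continuous_const ?_ hout.cont ?_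
    · have h1 : ContinuousOn (fun z => f (E z)) DD := hone.cont.comp hEc hEmDD
      refine h1.mono ?_
      intro z hz
      exact mem_DD.2 hz
    · intro z hz
      have h1 : z ∈ SS := mem_SS.2 hz
      rw [hES z h1, hφF z h1]
  have himD : W '' D = inn (Lam ρ) := by
    have h1 : f '' (E '' D) = inn (Lam ρ) := by rw [hEb.image_eq, hone.bij.image_eq]
    rw [← h1, image_image]
    exact image_congr fun z hz => hWin z (hDsub hz)
  have himS : W '' SS = Lam ρ := by
    have h1 : f '' (E '' SS) = Lam ρ := by rw [hEbS.image_eq, hone.bijS.image_eq]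
    rw [← h1, image_image]
    exact image_congr fun z hz => hWin z (hSsub hz)
  have himO : W '' {z : ℂ | 1 < ‖z‖} = out (Lam ρ) := by
    rw [← hout.bij.image_eq]
    exact image_congr fun z hz => hWout z (le_of_lt hz)
  have hiD : InjOn W D := by
    intro x hx y hy hxy
    rw [hWin x (hDsub hx), hWin y (hDsub hy)] at hxy
    exact hEb.injOn hx hy (hone.bij.injOn (hEb.mapsTo hx) (hEb.mapsTo hy) hxy)
  have hiS : InjOn W SS := by
    intro x hx y hy hxy
    rw [hWin x (hSsub hx), hWin y (hSsub hy)] at hxy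
    exact hEbS.injOn hx hy (hone.bijS.injOn (hEbS.mapsTo hx) (hEbS.mapsTo hy) hxy)
  have hiO : InjOn W {z : ℂ | 1 < ‖z‖} := by
    intro x hx y hy hxy
    rw [hWout x (le_of_lt hx), hWout y (le_of_lt hy)] at hxy
    exact hout.bij.injOn hx hy hxy
  have htri : ∀ z : ℂ, z ∈ D ∨ z ∈ SS ∨ z ∈ {z : ℂ | 1 < ‖z‖} := by
    intro z
    rcases lt_trichotomy ‖z‖ 1 with h | h | h
    · exact Or.inl (mem_D.2 h)
    · exact Or.inr (Or.inl (mem_SS.2 h))
    · exact Or.inr (Or.inr h)
  have hmD : ∀ z ∈ D, W z ∈ inn (Lam ρ) := fun z hz => himD ▸ mem_image_of_mem W hz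
  have hmS : ∀ z ∈ SS, W z ∈ Lam ρ := fun z hz => himS ▸ mem_image_of_mem W hz
  have hmO : ∀ z ∈ {z : ℂ | 1 < ‖z‖}, W z ∈ out (Lam ρ) := fun z hz =>
    himO ▸ mem_image_of_mem W hz
  have hWinj : Function.Injective W := by
    intro x y hxy
    rcases htri x with hx | hx | hx <;> rcases htri y with hy | hy | hy
    · exact hiD hx hy hxy
    · exact absurd (hxy ▸ hmS y hy : W x ∈ Lam ρ) (hmD x hx).1
    · exact absurd (hxy ▸ (hmO y hy).2 : LogOn (Lam ρ) (fun z => z - W x)) (hmD x hx).2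
    · exact absurd (hxy ▸ hmS x hx : W y ∈ Lam ρ) (hmD y hy).1
    · exact hiS hx hy hxy
    · exact absurd (hxy ▸ hmS x hx : W y ∈ Lam ρ) (hmO y hy).1
    · exact absurd (hxy ▸ (hmO x hx).2 : LogOn (Lam ρ) (fun z => z - W y)) (hmD y hy).2
    · exact absurd (hxy ▸ hmS y hy : W x ∈ Lam ρ) (hmO x hx).1
    · exact hiO hx hy hxy
  have hWsurj : Function.Surjective W := by
    intro q
    by_cases h1 : q ∈ Lam ρ
    · obtain ⟨z, -, hz⟩ := himS.symm ▸ h1
      exact ⟨z, hz⟩
    · by_cases h2 : LogOn (Lam ρ) (fun z => z - q)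
      · have h3 : q ∈ W '' {z : ℂ | 1 < ‖z‖} := by
          rw [himO]
          exact ⟨h1, h2⟩
        obtain ⟨z, -, hz⟩ := h3
        exact ⟨z, hz⟩
      · have h3 : q ∈ W '' D := by
          rw [himD]
          exact ⟨h1, h2⟩
        obtain ⟨z, -, hz⟩ := h3
        exact ⟨z, hz⟩
  have hbig : ∀ᶠ z in Bornology.cobounded ℂ, 1 < ‖z‖ :=
    tendsto_norm_cobounded_atTop.eventually_gt_atTop 1
  have hWasy : Tendsto (fun z : ℂ => W z - a * z - c) (Bornology.cobounded ℂ) (𝓝 0) := by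
    refine hasy.congr' ?_
    filter_upwards [hbig] with z hz
    rw [hWout z hz.le]
  have hWprop : Tendsto W (Bornology.cobounded ℂ) (Bornology.cobounded ℂ) := by
    rw [← tendsto_norm_atTop_iff_cobounded]
    have h1 : Tendsto (fun z : ℂ => ‖a‖ * ‖z‖ + (-(‖c‖ + 1))) (Bornology.cobounded ℂ) atTop :=
      tendsto_atTop_add_const_right _ _
        (tendsto_norm_cobounded_atTop.const_mul_atTop (norm_pos_iff.2 ha))
    refine tendsto_atTop_mono' _ ?_ h1
    have h2 : ∀ᶠ z in Bornology.cobounded ℂ, ‖W z - a * z - c‖ < 1 := by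
      have := hWasy.norm
      rw [norm_zero] at this
      exact this.eventually_lt_const one_pos
    filter_upwards [h2] with z hz
    have h3 : a * z = W z - (W z - a * z - c) - c := by ring
    have h4 : ‖a‖ * ‖z‖ ≤ ‖W z‖ + ‖W z - a * z - c‖ + ‖c‖ := by
      rw [← norm_mul, h3]
      refine (norm_sub_le _ _).trans ?_
      refine add_le_add ?_ le_rfl
      have h5 : W z - (W z - (W z - (W z - a * z - c) - c) - c) = W z - (W z - a * z - c) := by
        ring
      exact (norm_sub_le _ _).trans (by rw [← h3])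
    linarith
  have hWhomeo : IsHomeomorph W := by
    rw [isHomeomorph_iff_continuous_isClosedMap_bijective]
    refine ⟨hWcont, ?_, hWinj, hWsurj⟩
    have h1 : IsProperMap W := by
      rw [isProperMap_iff_tendsto_cocompact]
      refine ⟨hWcont, ?_⟩
      rw [← Metric.cobounded_eq_cocompact]
      exact hWprop
    exact h1.isClosedMap
  have hfE : ContDiffOn ℝ 1 (fun z => f (E z)) D := by
    have h1 : ContDiffOn ℂ 1 f D := hone.hol.contDiffOn isOpen_ball
    exact (h1.restrict_scalars ℝ).comp hE1 hEb.mapsTo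
  have hchain : ∀ z ∈ D, dz W z = deriv f (E z) * dz E z ∧ dzb W z = deriv f (E z) * dzb E z := by
    intro z hz
    refine wma_chain f E z ?_ ?_ W ?_
    · exact (hone.hol (E z) (hEb.mapsTo hz)).differentiableAt (isOpen_ball.mem_nhds (hEb.mapsTo hz))
    · exact ((hE1 z hz).contDiffAt (isOpen_ball.mem_nhds hz)).differentiableAt one_ne_zero
    · filter_upwards [isOpen_ball.mem_nhds hz] with w hw
      exact hWin w (hDsub hw)
  have hf' : ∀ z ∈ D, deriv f z ≠ 0 := (hRIJ D f isOpen_ball hone.hol hone.bij.injOn).1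
  have hdzE : ∀ z ∈ D, dz E z ≠ 0 := by
    intro z hz h0
    have h1 := hEj z hz
    rw [h0, norm_zero] at h1
    exact absurd h1 (not_lt.2 (norm_nonneg _))
  refine ⟨σ, τ, W, f, E, k, a, c, ?_⟩
  exact
    { k0 := hk0
      k1 := hk1
      a0 := ha
      fs := hout.fuch
      one := hone
      homeo := hWhomeo
      asy := hWasy
      hol := hout.hol.congr fun z hz => hWout z (le_of_lt hz)
      inside := hWin
      econt := hEc
      ebij := hEb
      ebijS := hEbS
      ec1 := hE1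
      edil := fun z hz => ⟨hdzE z hz, hk z hz⟩
      c1 := hfE.congr fun z hz => hWin z (hDsub hz)
      dil := fun z hz => by
        obtain ⟨h1, h2⟩ := hchain z hz
        have h3 := hf' (E z) (hEb.mapsTo hz)
        rw [h1, h2, norm_mul, norm_mul]
        refine ⟨mul_ne_zero h3 (hdzE z hz), ?_⟩
        have h4 := mul_le_mul_of_nonneg_left (hk z hz) (norm_nonneg (deriv f (E z)))
        linarith
      imD := himD
      imS := himS
      imO := himO
      eqvE := heDD
      eqv := fun γ z => by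
        rcases le_or_gt ‖z‖ 1 with h | h
        · have hz : z ∈ DD := mem_DD.2 h
          have h1 : den (σ γ) z ≠ 0 := (hSUB.1 (σ γ) (hout.fuch.su γ)).2.1 z hz
          obtain ⟨h2, h3⟩ := hone.eqv γ (E z) (hEmDD hz)
          have h4 : mob (σ γ) z ∈ DD := by
            rcases hsplit z hz with h5 | h5
            · exact hDsub (hmobD γ z h5)
            · exact hSsub (hmobS γ z h5)
          rw [hWin z hz]
          refine ⟨iff_of_false h1 h2, fun _ => ?_⟩
          rw [hWin _ h4, heDD γ z hz, h3]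
        · rw [hWout z h.le]
          obtain ⟨h1, h2⟩ := hout.eqv γ z h.le
          refine ⟨h1, fun h3 => ?_⟩
          obtain ⟨h4, h5⟩ := h2 h3
          rw [hWout _ h4, h5] }

end Pool.Agent.Helper7.QD
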