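import Pool.Agent.Helper58.QD.StG

/-!
# Project QD, module NSH: Nash type inequality
-/

set_option autoImplicit false

namespace Pool.Agent.Helper7.QD

open Helper62.LH Helper62.DSH Helper58.QD MeasureTheory Set Filter Topology
open scoped ContDiff ENNReal

/-- the integral of a nonnegative continuous function of compact support -/
theorem lin_eq {n : ℕ} {g : E n → Bl n} (hv : Continuous (vol g)) (hp : ∀ x, 0 < vol g x) {f : E n → ℝ}
    (hf : Continuous f) (hc : HasCompactSupport f) (h0 : ∀ x, 0 ≤ f x) :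
    ∫⁻ x, ENNReal.ofReal (f x) ∂(mg g) = ENNReal.ofReal (∫ x, f x * vol g x) := by
  unfold mg
  rw [lintegral_withDensity_eq_lintegral_mul _ hv.measurable.ennreal_ofReal hf.measurable.ennreal_ofReal,
    ofReal_integral_eq_lintegral_ofReal]
  · refine lintegral_congr fun x => ?_
    rw [Pi.mul_apply, mul_comm, ENNReal.ofReal_mul (h0 x)]
  · exact (hf.mul hv).integrable_of_hasCompactSupport hc.mul_right
  · exact Filter.Eventually.of_forall fun x => mul_nonneg (h0 x) (hp x).le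

/-- the pointwise inequality -/
theorem ptw {n : ℕ} {g : E n → Bl n} {z : E n → ℝ} (hz : Continuous z) {S : Set (E n)} (hS : MeasurableSet S)
    (h0 : mg g S ≠ 0) (h1 : mg g S ≠ ⊤) (a : ℝ) {M : ℝ≥0∞} (hM : (mg g S)⁻¹ ≤ M) :
    ENNReal.ofReal (a ^ 2) ≤ (mg g S)⁻¹ * (∫⁻ y in S, ENNReal.ofReal ((a - z y) ^ 2) ∂(mg g)) +
      M * (ENNReal.ofReal (2 * |a|) * ∫⁻ y, ENNReal.ofReal |z y| ∂(mg g)) := by
  have k1 : ∀ y, ENNReal.ofReal (a ^ 2) ≤ ENNReal.ofReal ((a - z y) ^ 2) +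
      ENNReal.ofReal (2 * |a|) * ENNReal.ofReal |z y| := by
    intro y
    rw [← ENNReal.ofReal_mul (by positivity), ← ENNReal.ofReal_add (by positivity) (by positivity)]
    refine ENNReal.ofReal_le_ofReal ?_
    have h2 : a * z y ≤ |a| * |z y| := by
      rw [← abs_mul]
      exact le_abs_self _
    nlinarith [sq_nonneg (z y)]
  have k2 : mg g S * ENNReal.ofReal (a ^ 2) ≤ (∫⁻ y in S, ENNReal.ofReal ((a - z y) ^ 2) ∂(mg g)) +
      ENNReal.ofReal (2 * |a|) * ∫⁻ y, ENNReal.ofReal |z y| ∂(mg g) := by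
    calc mg g S * ENNReal.ofReal (a ^ 2) = ∫⁻ y in S, ENNReal.ofReal (a ^ 2) ∂(mg g) := by
          rw [setLIntegral_const, mul_comm]
      _ ≤ ∫⁻ y in S, (ENNReal.ofReal ((a - z y) ^ 2) + ENNReal.ofReal (2 * |a|) * ENNReal.ofReal |z y|) ∂(mg g) :=
          lintegral_mono fun y => k1 y
      _ = (∫⁻ y in S, ENNReal.ofReal ((a - z y) ^ 2) ∂(mg g)) +
          ∫⁻ y in S, ENNReal.ofReal (2 * |a|) * ENNReal.ofReal |z y| ∂(mg g) := by
          refine lintegral_add_right _ ?_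
          exact (hz.abs.measurable.ennreal_ofReal).const_mul _
      _ ≤ _ := by
          refine add_le_add le_rfl ?_
          rw [lintegral_const_mul _ hz.abs.measurable.ennreal_ofReal]
          exact mul_le_mul' le_rfl (setLIntegral_le_lintegral _ _)
  calc ENNReal.ofReal (a ^ 2) = (mg g S)⁻¹ * (mg g S * ENNReal.ofReal (a ^ 2)) := by
        rw [← mul_assoc, ENNReal.inv_mul_cancel h0 h1, one_mul]
    _ ≤ (mg g S)⁻¹ * ((∫⁻ y in S, ENNReal.ofReal ((a - z y) ^ 2) ∂(mg g)) +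
      ENNReal.ofReal (2 * |a|) * ∫⁻ y, ENNReal.ofReal |z y| ∂(mg g)) := mul_le_mul' le_rfl k2
    _ ≤ _ := by
        rw [mul_add]
        exact add_le_add le_rfl (mul_le_mul' hM le_rfl)

theorem hNsh : StMet → StUt → SBal → SBgv → SAvj → SNsh := by
  intro hMet hUt hBal hBgv hAvj n g Γ hg hΓ hC hSec
  obtain ⟨-, -, d0, dxx, dsy, dtr⟩ := hMet n g hg
  obtain ⟨u1, -, vc, vp, uK, -⟩ := hUt n g hg
  obtain ⟨-, b2, b3⟩ := hBgv n g Γ hg hΓ hC hSec
  refine ⟨8 ^ n + 2 ^ (n + 1), by positivity, ?_⟩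
  intro x ρ r hr hrρ z hz hzs
  have hρ : 0 < ρ := lt_of_lt_of_le hr hrρ
  have zc : Continuous z := hz.1.continuous
  have gsc : Continuous (gs g z) := u1 _ _ (hz.1.continuous_fderiv (by simp)) (hz.1.continuous_fderiv (by simp))
  have gs0 : ∀ y, 0 ≤ gs g z y := by
    intro y
    obtain ⟨c, C, hc, -, h⟩ := uK {y} isCompact_singleton
    exact le_trans (by positivity) ((h y rfl).2.2.1 (fderiv ℝ z y)).1
  have gsS : HasCompactSupport (gs g z) := by
    refine (hz.2.fderiv (𝕜 := ℝ)).mono ?_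
    intro y hy h
    refine hy ?_
    obtain ⟨c, C, hc, -, h'⟩ := uK {y} isCompact_singleton
    have h2 := ((h' y rfl).2.2.1 (fderiv ℝ z y)).2
    rw [h, norm_zero] at h2
    have h3 := gs0 y
    show gs g z y = 0
    unfold gs at h3 ⊢
    rw [h] at h3 ⊢
    nlinarith
  have e1 : ∫⁻ y, ENNReal.ofReal (z y ^ 2) ∂(mg g) = ENNReal.ofReal (∫ y, z y ^ 2 * vol g y) :=
    lin_eq vc vp (zc.pow 2) (hz.2.comp_left (g := fun t : ℝ => t ^ 2) (by norm_num)) fun y => sq_nonneg _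
  have e2 : ∫⁻ y, ENNReal.ofReal (gs g z y) ∂(mg g) = ENNReal.ofReal (∫ y, gs g z y * vol g y) :=
    lin_eq vc vp gsc gsS gs0
  have e3 : ∫⁻ y, ENNReal.ofReal |z y| ∂(mg g) = ENNReal.ofReal (∫ y, |z y| * vol g y) :=
    lin_eq vc vp zc.abs (hz.2.comp_left (g := fun t : ℝ => |t|) abs_zero) fun y => abs_nonneg _
  have G0 : 0 ≤ ∫ y, gs g z y * vol g y := integral_nonneg fun y => mul_nonneg (gs0 y) (vp y).le
  have I0 : 0 ≤ ∫ y, |z y| * vol g y := integral_nonneg fun y => mul_nonneg (abs_nonneg _) (vp y).le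
  have Vx : 0 < vb g x ρ := (hBal n g Γ hg hΓ hC x).2.2.1 ρ hρ
  set G := ∫ y, gs g z y * vol g y with hG
  set I := ∫ y, |z y| * vol g y with hI
  set M : ℝ := (2 * ρ / r) ^ n / vb g x ρ with hM
  have M0 : 0 ≤ M := by positivity
  have key : ∀ y, ENNReal.ofReal (z y ^ 2) ≤
      (mg g (Ba g y r))⁻¹ * (∫⁻ y' in Ba g y r, ENNReal.ofReal ((z y - z y') ^ 2) ∂(mg g)) +
      ENNReal.ofReal (2 * M * I) * ENNReal.ofReal |z y| := by
    intro y
    by_cases h0 : z y = 0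
    · rw [h0]
      simp
    have hd := hzs y h0
    obtain ⟨o1, f1, p1, -, m1⟩ := hBal n g Γ hg hΓ hC y
    have hv : 0 < vb g y r := p1 r hr
    have hμ : mg g (Ba g y r) = ENNReal.ofReal (vb g y r) := (ENNReal.ofReal_toReal (f1 r)).symm
    have h1 : vb g x ρ ≤ (2 * ρ / r) ^ n * vb g y r := by
      have h2 := b3 x y ρ
      have h3 := m1 (ρ + dg g x y) (2 * ρ) (by linarith)
      have h4 := b2 y (2 * ρ) (r / (2 * ρ)) (by positivity) (by rw [div_le_one (by positivity)]; linarith)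
      have e : r / (2 * ρ) * (2 * ρ) = r := by field_simp
      rw [e, one_div_div] at h4
      linarith
    have hM' : (mg g (Ba g y r))⁻¹ ≤ ENNReal.ofReal M := by
      rw [hμ, ← ENNReal.ofReal_inv_of_pos hv]
      refine ENNReal.ofReal_le_ofReal ?_
      rw [hM, inv_eq_one_div, div_le_div_iff₀ hv Vx]
      linarith
    have hS0 : mg g (Ba g y r) ≠ 0 := by
      rw [hμ]
      simpa using hv
    refine (ptw zc (o1 r).measurableSet hS0 (f1 r) (z y) hM').trans (add_le_add le_rfl (le_of_eq ?_))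
    rw [e3, ← ENNReal.ofReal_mul (by positivity), ← ENNReal.ofReal_mul M0, ← ENNReal.ofReal_mul (by positivity)]
    congr 1
    ring
  have tot : ENNReal.ofReal (∫ y, z y ^ 2 * vol g y) ≤ ENNReal.ofReal (8 ^ n * r ^ 2 * G + 2 * M * I * I) := by
    rw [← e1, ENNReal.ofReal_add (by positivity) (by positivity),
      ENNReal.ofReal_mul (q := G) (by positivity), ENNReal.ofReal_mul (q := I) (by positivity), ← e2]
    calc ∫⁻ y, ENNReal.ofReal (z y ^ 2) ∂(mg g) ≤
        ∫⁻ y, ((mg g (Ba g y r))⁻¹ * (∫⁻ y' in Ba g y r, ENNReal.ofReal ((z y - z y') ^ 2) ∂(mg g)) +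
          ENNReal.ofReal (2 * M * I) * ENNReal.ofReal |z y|) ∂(mg g) := lintegral_mono key
      _ = (∫⁻ y, (mg g (Ba g y r))⁻¹ * (∫⁻ y' in Ba g y r, ENNReal.ofReal ((z y - z y') ^ 2) ∂(mg g)) ∂(mg g)) +
          ∫⁻ y, ENNReal.ofReal (2 * M * I) * ENNReal.ofReal |z y| ∂(mg g) :=
          lintegral_add_right _ (zc.abs.measurable.ennreal_ofReal.const_mul _)
      _ ≤ _ := by
          refine add_le_add (hAvj n g Γ hg hΓ hC hSec z hz r hr) ?_
          rw [lintegral_const_mul _ zc.abs.measurable.ennreal_ofReal, e3]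
  have fin := (ENNReal.ofReal_le_ofReal_iff (by positivity)).1 tot
  have w1 : 8 ^ n * r ^ 2 * G ≤ (8 ^ n + 2 ^ (n + 1)) * r ^ 2 * G := by
    refine mul_le_mul_of_nonneg_right (mul_le_mul_of_nonneg_right ?_ (by positivity)) G0
    have : (0 : ℝ) < 2 ^ (n + 1) := by positivity
    linarith
  have w2 : 2 * M * I * I ≤ (8 ^ n + 2 ^ (n + 1)) * (ρ / r) ^ n / vb g x ρ * I ^ 2 := by
    have e : 2 * M * I * I = (2 ^ (n + 1) * (ρ / r) ^ n / vb g x ρ) * I ^ 2 := by
      rw [hM, mul_div_assoc, mul_pow, pow_succ (2 : ℝ) n]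
      ring
    rw [e]
    refine mul_le_mul_of_nonneg_right ?_ (sq_nonneg _)
    refine div_le_div_of_nonneg_right (mul_le_mul_of_nonneg_right ?_ (by positivity)) Vx.le
    have : (0 : ℝ) < 8 ^ n := by positivity
    linarith
  linarith

end Pool.Agent.Helper7.QD
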