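import Pool.Agent.Helper58.QD.StE

/-!
# Project QD, module WLB: bound of the Weitzenboeck form by the curvature
-/

set_option autoImplicit false

namespace Pool.Agent.Helper7.QD

open Helper62.LH Helper62.DSH Helper58.QD MeasureTheory Set Filter Topology
open scoped ContDiff ENNReal

theorem hWlb : TRho → TNrm → SWlb := by
  intro hRho hNrm n m
  refine ⟨(n : ℝ) ^ 3 * ((m : ℝ) + 1) ^ 2, by positivity, ?_⟩
  intro R B hB hR t
  have q0 : ∀ {j : ℕ} (s : Tn n j), 0 ≤ q2 s := fun {j} s => ((hNrm n j).1 s).1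
  have hct : ∀ (a : Fin n) (s : Tn n (m + 1)), q2 (ct a s) ≤ ((m : ℝ) + 1) * q2 s := by
    intro a s
    rw [← (hNrm n m).2.2.2.2.2.2.2 s]
    exact Finset.single_le_sum (f := fun a => q2 (ct a s)) (fun i _ => q0 _) (Finset.mem_univ a)
  have hone : ∀ a b : Fin n, |ipt (ct a t) (ct b (rho (R a b) t))| ≤ ((m : ℝ) + 1) ^ 2 * n * B * q2 t := by
    intro a b
    have h1 := (hNrm n m).2.2.1 (ct a t) (ct b (rho (R a b) t))
    have h2 := (hRho n (m + 1) (R a b) (R a b)).2.2.2.2 B t (hR a b)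
    have h3 := hct a t
    have h4 := (hct b (rho (R a b) t)).trans (mul_le_mul_of_nonneg_left h2 (by positivity))
    push_cast at h4
    have hq := q0 t
    have e1 : √(q2 (ct a t)) ≤ √(((m : ℝ) + 1) * q2 t) := Real.sqrt_le_sqrt h3
    have e2 : √(q2 (ct b (rho (R a b) t))) ≤ √((((m : ℝ) + 1) * n * B) ^ 2 * (((m : ℝ) + 1) * q2 t)) :=
      Real.sqrt_le_sqrt (h4.trans (le_of_eq (by ring)))
    rw [Real.sqrt_mul (by positivity), Real.sqrt_sq (by positivity)] at e2
    calc |ipt (ct a t) (ct b (rho (R a b) t))| ≤ √(q2 (ct a t)) * √(q2 (ct b (rho (R a b) t))) := h1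
      _ ≤ √(((m : ℝ) + 1) * q2 t) * ((((m : ℝ) + 1) * n * B) * √(((m : ℝ) + 1) * q2 t)) :=
          mul_le_mul e1 e2 (Real.sqrt_nonneg _) (Real.sqrt_nonneg _)
      _ = (((m : ℝ) + 1) * n * B) * (√(((m : ℝ) + 1) * q2 t) * √(((m : ℝ) + 1) * q2 t)) := by ring
      _ = _ := by
          rw [Real.mul_self_sqrt (by positivity)]
          ring
  unfold Wz
  calc |∑ a, ∑ b, ipt (ct a t) (ct b (rho (R a b) t))| ≤ ∑ a, ∑ b, |ipt (ct a t) (ct b (rho (R a b) t))| :=
        (Finset.abs_sum_le_sum_abs _ _).trans (Finset.sum_le_sum fun a _ => Finset.abs_sum_le_sum_abs _ _)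
    _ ≤ ∑ a : Fin n, ∑ b : Fin n, ((m : ℝ) + 1) ^ 2 * n * B * q2 t :=
        Finset.sum_le_sum fun a _ => Finset.sum_le_sum fun b _ => hone a b
    _ = _ := by
        simp only [Finset.sum_const, Finset.card_univ, Fintype.card_fin, nsmul_eq_mul]
        ring

end Pool.Agent.Helper7.QD
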