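import Pool.Agent.Helper20.QD.St4

/-!
# Project QD, part B (MP_d112a4_gt), module FBO: the boundary homeomorphism
-/

set_option autoImplicit false

open Filter Topology Matrix Set Metric
open scoped ComplexConjugate ComplexOrder

namespace Pool.Agent.Helper7.QD

open Pool.Agent.Helper35.PM Pool.Agent.Helper20.QD

private theorem fbo_tri (hLFR : StLFR) (P Q R : Mat) : fr P R ≤ 2 * (fr P Q + fr Q R) := by
  obtain ⟨h1, h2, -, -⟩ := hLFR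
  have h := h2 P Q R
  have a := Real.sq_sqrt (h1 P R).1
  have b := Real.sq_sqrt (h1 P Q).1
  have c := Real.sq_sqrt (h1 Q R).1
  have a' := Real.sqrt_nonneg (fr P R)
  have h3 : Real.sqrt (fr P R) ^ 2 ≤ (Real.sqrt (fr P Q) + Real.sqrt (fr Q R)) ^ 2 :=
    pow_le_pow_left₀ a' h 2
  nlinarith [sq_nonneg (Real.sqrt (fr P Q) - Real.sqrt (fr Q R))]

variable {Γ : Type} [Group Γ]

private theorem fbo_neBot (ρ : Γ →* SL) (Q : Mat) (hQ : Q ∈ limitSet ρ) :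
    (comap (orb ρ) (𝓝 Q) ⊓ cofinite).NeBot := by
  have h : MapClusterPt Q cofinite (orb ρ) := hQ
  rw [mapClusterPt_iff_frequently] at h
  rw [Filter.inf_neBot_iff]
  intro s hs s' hs'
  obtain ⟨t, ht, hts⟩ := Filter.mem_comap.1 hs
  obtain ⟨a, ha1, ha2⟩ := ((h t ht).and_eventually hs').exists
  exact ⟨a, hts ha1, ha2⟩

/-- the determinant of the orbit is small near the sphere, so `hs` is large -/
private theorem fbo_hs (hLMX : StLMX) (ρ : Γ →* SL) (Q : Mat) (hQ : Q ∈ sph) (δ : ℝ) (hδ : 0 < δ) :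
    {γ : Γ | 1 / hs (ρ γ : Mat) < δ} ∈ comap (orb ρ) (𝓝 Q) := by
  obtain ⟨m1, -, -, m4, -, -⟩ := hLMX
  have hc : Continuous (fun P : Mat => P.det) := continuous_id.matrix_det
  have hd : Q.det = 0 := hQ.2.2
  have h1 : {P : Mat | ‖P.det‖ < δ ^ 2} ∈ 𝓝 Q := by
    have h2 : Tendsto (fun P : Mat => ‖P.det‖) (𝓝 Q) (𝓝 ‖Q.det‖) :=
      (hc.norm).tendsto Q
    rw [hd, norm_zero] at h2
    exact h2.eventually_lt_const (by positivity)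
  refine Filter.mem_comap.2 ⟨_, h1, ?_⟩
  intro γ hγ
  have h3 : ‖(orb ρ γ).det‖ < δ ^ 2 := hγ
  have h4 : (orb ρ γ).det = ((1 / hs (ρ γ : Mat) ^ 2 : ℝ) : ℂ) := (m4 (ρ γ)).2.2
  have h5 : 2 ≤ hs (ρ γ : Mat) := m1 (ρ γ)
  rw [h4, Complex.norm_real, Real.norm_of_nonneg (by positivity)] at h3
  have h6 : (1 / hs (ρ γ : Mat)) ^ 2 < δ ^ 2 := by
    rw [div_pow, one_pow]; exact h3
  exact lt_of_pow_lt_pow_left₀ 2 hδ.le h6

private theorem fbo_lim (hLFR : StLFR) (hLMX : StLMX) (hLLS : StLLS) (hFLO : StFLO)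
    (ρ1 ρ2 : Γ →* SL) (h1 : CC ρ1) (h2 : CC ρ2) (Q : Mat) (hQ : Q ∈ limitSet ρ1) :
    ∃ B : Mat, Tendsto (orb ρ2) (comap (orb ρ1) (𝓝 Q)) (𝓝 B) := by
  have hne : (comap (orb ρ1) (𝓝 Q)).NeBot := by
    have := fbo_neBot ρ1 Q hQ
    exact this.mono inf_le_left
  have hsph : Q ∈ sph := (hLLS Γ ρ1 h1.discrete).2.1 hQ
  have hent : ∀ i j : Fin 2, ∃ c : ℂ,
      Tendsto (fun γ => orb ρ2 γ i j) (comap (orb ρ1) (𝓝 Q)) (𝓝 c) := by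
    intro i j
    rw [← cauchy_map_iff_exists_tendsto, Metric.cauchy_iff]
    refine ⟨hne.map _, fun ε hε => ?_⟩
    obtain ⟨δ, hδ, hF⟩ := hFLO Γ ρ1 ρ2 h1 h2 (ε ^ 2) (by positivity)
    have ht1 := fbo_hs hLMX ρ1 Q hsph δ hδ
    have ht2 : {γ : Γ | fr (orb ρ1 γ) Q < δ / 4} ∈ comap (orb ρ1) (𝓝 Q) := by
      refine Filter.mem_comap.2 ⟨{P | fr P Q < δ / 4}, ?_, fun γ hγ => hγ⟩
      exact (hLFR.2.2.2 Q).mem_of_mem (by positivity)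
    refine ⟨(fun γ => orb ρ2 γ i j) '' ({γ : Γ | 1 / hs (ρ1 γ : Mat) < δ} ∩
      {γ : Γ | fr (orb ρ1 γ) Q < δ / 4}), image_mem_map (inter_mem ht1 ht2), ?_⟩
    rintro _ ⟨γ, ⟨ha, hb⟩, rfl⟩ _ ⟨γ', ⟨ha', hb'⟩, rfl⟩
    have h3 : fr (orb ρ1 γ) (orb ρ1 γ') < δ := by
      have h4 := fbo_tri hLFR (orb ρ1 γ) Q (orb ρ1 γ')
      have h5 := (hLFR.1 Q (orb ρ1 γ')).2.1
      have hb1 : fr (orb ρ1 γ) Q < δ / 4 := hb
      have hb2 : fr (orb ρ1 γ') Q < δ / 4 := hb'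
      linarith
    have h6 := hF γ γ' ha ha' h3
    have h7 := hLFR.2.2.1 (orb ρ2 γ) (orb ρ2 γ') i j
    have h8 : ‖orb ρ2 γ i j - orb ρ2 γ' i j‖ ^ 2 < ε ^ 2 := lt_of_le_of_lt h7 h6
    rw [dist_eq_norm]
    exact lt_of_pow_lt_pow_left₀ 2 hε.le h8
  choose B hB using hent
  refine ⟨Matrix.of B, ?_⟩
  refine tendsto_pi_nhds.2 fun i => tendsto_pi_nhds.2 fun j => ?_
  exact hB i j

private theorem fbo_half (hLFR : StLFR) (hLMX : StLMX) (hLLS : StLLS) (hFLO : StFLO)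
    (ρ1 ρ2 : Γ →* SL) (h1 : CC ρ1) (h2 : CC ρ2) :
    ∃ b : Mat → Mat, (∀ Q ∈ limitSet ρ1, b Q ∈ limitSet ρ2) ∧
      ∀ Q ∈ limitSet ρ1, Tendsto (orb ρ2) (comap (orb ρ1) (𝓝 Q)) (𝓝 (b Q)) := by
  classical
  have h : ∀ Q : Mat, ∃ B : Mat, Q ∈ limitSet ρ1 →
      Tendsto (orb ρ2) (comap (orb ρ1) (𝓝 Q)) (𝓝 B) := by
    intro Q
    by_cases hQ : Q ∈ limitSet ρ1
    · obtain ⟨B, hB⟩ := fbo_lim hLFR hLMX hLLS hFLO ρ1 ρ2 h1 h2 Q hQ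
      exact ⟨B, fun _ => hB⟩
    · exact ⟨Q, fun h => absurd h hQ⟩
  choose b hb using h
  refine ⟨b, fun Q hQ => ?_, hb⟩
  have hne := fbo_neBot ρ1 Q hQ
  have h3 : Tendsto (orb ρ2) (comap (orb ρ1) (𝓝 Q) ⊓ cofinite) (𝓝 (b Q)) :=
    (hb Q hQ).mono_left inf_le_left
  exact (h3.mapClusterPt).mono inf_le_right

private theorem density_smul (c : ℂ) (hc : c ≠ 0) (P : Mat) : density (c • P) = density P := by
  rw [density, density, Matrix.trace_smul, smul_smul, smul_eq_mul, mul_inv]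
  congr 1
  field_simp

private theorem orb_mul (hLMX : StLMX) (ρ : Γ →* SL) (γ δ : Γ) :
    orb ρ (γ * δ) = act (ρ γ) (orb ρ δ) := by
  have ht : ((ρ δ : Mat) * (ρ δ : Mat)ᴴ).trace ≠ 0 := by
    intro h0
    have h1 := (hLMX.2.2.2.1 (ρ δ)).2.1
    rw [density, h0, _root_.inv_zero, zero_smul, Matrix.trace_zero] at h1
    exact zero_ne_one h1
  have h2 : ((ρ (γ * δ) : SL) : Mat) = (ρ γ : Mat) * (ρ δ : Mat) := by
    rw [map_mul]; rfl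
  have h4 : ∀ (c : ℂ) (A P : Mat), A * (c • P) * Aᴴ = c • (A * P * Aᴴ) := by
    intro c A P
    rw [Matrix.mul_smul, Matrix.smul_mul]
  have h3 : act (ρ γ) (orb ρ δ) = density (((ρ δ : Mat) * (ρ δ : Mat)ᴴ).trace⁻¹ •
      ((ρ γ : Mat) * ((ρ δ : Mat) * (ρ δ : Mat)ᴴ) * (ρ γ : Mat)ᴴ)) :=
    congrArg density (h4 _ _ _)
  rw [h3, density_smul _ (inv_ne_zero ht), orb, h2, Matrix.conjTranspose_mul]
  congr 1
  simp only [Matrix.mul_assoc]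

private theorem act_cont (hLMX : StLMX) (A : SL) (Q : Mat) (hQ : Q ∈ sph) :
    ContinuousAt (act A) Q := by
  have h0 := (hLMX.2.2.2.2.1 A Q hQ).1
  have hc : Continuous (fun P : Mat => (A : Mat) * P * (A : Mat)ᴴ) :=
    (continuous_const.matrix_mul continuous_id).matrix_mul continuous_const
  have ht : Continuous (fun P : Mat => ((A : Mat) * P * (A : Mat)ᴴ).trace) := hc.matrix_trace
  have hne : ((A : Mat) * Q * (A : Mat)ᴴ).trace ≠ 0 := by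
    intro h
    rw [h] at h0
    simp at h0
  exact ((ht.continuousAt).inv₀ hne).smul hc.continuousAt

theorem hFBO (hLFR : StLFR) (_hLQC : StLQC) (hLMX : StLMX) (hLLS : StLLS) (hFLO : StFLO) :
    StFBO := by
  intro Γ _ ρ1 ρ2 h1 h2
  obtain ⟨b, hb1, hb2⟩ := fbo_half hLFR hLMX hLLS hFLO ρ1 ρ2 h1 h2
  obtain ⟨b', hb1', hb2'⟩ := fbo_half hLFR hLMX hLLS hFLO ρ2 ρ1 h2 h1
  have hreg : RegularSpace Mat := inferInstanceAs (RegularSpace (Fin 2 → Fin 2 → ℂ))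
  have hne : ∀ (ρ : Γ →* SL) (Q : Mat), Q ∈ limitSet ρ → (comap (orb ρ) (𝓝 Q)).NeBot :=
    fun ρ Q hQ => (fbo_neBot ρ Q hQ).mono inf_le_left
  have hinv : ∀ (ρ ρ' : Γ →* SL) (c c' : Mat → Mat), (∀ Q ∈ limitSet ρ, c Q ∈ limitSet ρ') →
      (∀ Q ∈ limitSet ρ, Tendsto (orb ρ') (comap (orb ρ) (𝓝 Q)) (𝓝 (c Q))) →
      (∀ Q ∈ limitSet ρ', Tendsto (orb ρ) (comap (orb ρ') (𝓝 Q)) (𝓝 (c' Q))) →
      ∀ Q ∈ limitSet ρ, c' (c Q) = Q := by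
    intro ρ ρ' c c' hc1 hc2 hc2' Q hQ
    have := hne ρ Q hQ
    have h3 : comap (orb ρ) (𝓝 Q) ≤ comap (orb ρ') (𝓝 (c Q)) :=
      Filter.map_le_iff_le_comap.1 (hc2 Q hQ)
    have h4 := (hc2' (c Q) (hc1 Q hQ)).mono_left h3
    exact tendsto_nhds_unique h4 tendsto_comap
  have hbb' := hinv ρ1 ρ2 b b' hb1 hb2 hb2'
  have hb'b := hinv ρ2 ρ1 b' b hb1' hb2' hb2
  refine ⟨b, ?_, ⟨hb1, ?_, ?_⟩, ?_, ?_⟩
  · intro Q hQ
    have hbQ := hb2 Q hQ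
    refine (closed_nhds_basis (b Q)).tendsto_right_iff.2 ?_
    rintro V ⟨hV, hVc⟩
    obtain ⟨U, hU, hUV⟩ := Filter.mem_comap.1 (hbQ hV)
    have h3 : interior U ∈ 𝓝 Q := interior_mem_nhds.2 hU
    filter_upwards [mem_nhdsWithin_of_mem_nhds h3, self_mem_nhdsWithin] with Q' hQ'U hQ'
    have := hne ρ1 Q' hQ'
    refine hVc.mem_of_tendsto (hb2 Q' hQ') ?_
    have h4 : U ∈ 𝓝 Q' := mem_interior_iff_mem_nhds.1 hQ'U
    exact Filter.mem_comap.2 ⟨U, h4, hUV⟩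
  · intro Q hQ Q' hQ' h
    rw [← hbb' Q hQ, ← hbb' Q' hQ', h]
  · intro Q hQ
    exact ⟨b' Q, hb1' Q hQ, hb'b Q hQ⟩
  · intro Q hQ ε hε
    have h3 : {P | fr P (b Q) < ε} ∈ 𝓝 (b Q) := (hLFR.2.2.2 (b Q)).mem_of_mem hε
    obtain ⟨U, hU, hUV⟩ := Filter.mem_comap.1 (hb2 Q hQ h3)
    obtain ⟨δ, hδ, hδU⟩ := (hLFR.2.2.2 Q).mem_iff.1 hU
    exact ⟨δ, hδ, fun γ hγ => hUV (hδU hγ)⟩
  · intro γ Q hQ
    have hn := hne ρ1 Q hQ
    have hQ' : act (ρ1 γ) Q ∈ limitSet ρ1 := (hLLS Γ ρ1 h1.discrete).2.2.2.1 γ Q hQ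
    have hs1 : Q ∈ sph := (hLLS Γ ρ1 h1.discrete).2.1 hQ
    have hs2 : b Q ∈ sph := (hLLS Γ ρ2 h2.discrete).2.1 (hb1 Q hQ)
    have h3 : Tendsto (fun δ => orb ρ1 (γ * δ)) (comap (orb ρ1) (𝓝 Q))
        (𝓝 (act (ρ1 γ) Q)) := by
      have h4 : Tendsto (fun δ => act (ρ1 γ) (orb ρ1 δ)) (comap (orb ρ1) (𝓝 Q))
          (𝓝 (act (ρ1 γ) Q)) :=
        (act_cont hLMX (ρ1 γ) Q hs1).tendsto.comp tendsto_comap
      simpa only [orb_mul hLMX] using h4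
    have h5 : Tendsto (fun δ => γ * δ) (comap (orb ρ1) (𝓝 Q))
        (comap (orb ρ1) (𝓝 (act (ρ1 γ) Q))) := tendsto_comap_iff.2 h3
    have h6 : Tendsto (fun δ => orb ρ2 (γ * δ)) (comap (orb ρ1) (𝓝 Q))
        (𝓝 (b (act (ρ1 γ) Q))) := (hb2 _ hQ').comp h5
    have h7 : Tendsto (fun δ => orb ρ2 (γ * δ)) (comap (orb ρ1) (𝓝 Q))
        (𝓝 (act (ρ2 γ) (b Q))) := by
      have h4 : Tendsto (fun δ => act (ρ2 γ) (orb ρ2 δ)) (comap (orb ρ1) (𝓝 Q))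
          (𝓝 (act (ρ2 γ) (b Q))) :=
        (act_cont hLMX (ρ2 γ) (b Q) hs2).tendsto.comp (hb2 Q hQ)
      simpa only [orb_mul hLMX] using h4
    exact tendsto_nhds_unique h6 h7

end Pool.Agent.Helper7.QD
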