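import Pool.Agent.Helper58.QD.StS

/-!
# Project QD, module LBD: primitives are large
-/

set_option autoImplicit false

noncomputable section

namespace Pool.Agent.Helper7.QD

open Helper62.LH Helper62.DSH Helper58.QD MeasureTheory Set Filter Topology
open scoped ContDiff ENNReal

/-! ## A cut-off function of one variable -/

private def ff (s : ℝ) : ℝ := 1 - Real.smoothTransition (4 * (s - 5 / 8))

private lemma ff_smooth : ContDiff ℝ ∞ ff := by
  unfold ff
  exact contDiff_const.sub (Real.smoothTransition.contDiff.comp (contDiff_const.mul (contDiff_id.sub contDiff_const)))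

private lemma ff_one {s : ℝ} (h : s ≤ 5 / 8) : ff s = 1 := by
  unfold ff
  rw [Real.smoothTransition.zero_of_nonpos (by linarith), sub_zero]

private lemma ff_zero {s : ℝ} (h : 7 / 8 ≤ s) : ff s = 0 := by
  unfold ff
  rw [Real.smoothTransition.one_of_one_le (by linarith), sub_self]

private lemma ff_nonneg (s : ℝ) : 0 ≤ ff s := by
  unfold ff
  linarith [Real.smoothTransition.le_one (4 * (s - 5 / 8))]

private lemma dff_left {s : ℝ} (h : s < 5 / 8) : deriv ff s = 0 := by
  have e : ff =ᶠ[𝓝 s] fun _ => (1 : ℝ) := by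
    filter_upwards [Iio_mem_nhds h] with t ht
    exact ff_one (le_of_lt ht)
  rw [e.deriv_eq]
  exact deriv_const s 1

private lemma dff_right {s : ℝ} (h : 7 / 8 < s) : deriv ff s = 0 := by
  have e : ff =ᶠ[𝓝 s] fun _ => (0 : ℝ) := by
    filter_upwards [Ioi_mem_nhds h] with t ht
    exact ff_zero (le_of_lt ht)
  rw [e.deriv_eq]
  exact deriv_const s 0

private lemma dff_bound : ∃ C₀ : ℝ, 0 < C₀ ∧ ∀ s, |deriv ff s| ≤ C₀ := by
  have hc : Continuous (deriv ff) := ff_smooth.continuous_deriv (by simp)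
  obtain ⟨C, hC⟩ := (isCompact_Icc (a := (0 : ℝ)) (b := 1)).exists_bound_of_continuousOn hc.continuousOn
  refine ⟨|C| + 1, by positivity, fun s => ?_⟩
  by_cases h1 : s < 5 / 8
  · rw [dff_left h1, abs_zero]
    positivity
  by_cases h2 : 7 / 8 < s
  · rw [dff_right h2, abs_zero]
    positivity
  push Not at h1 h2
  have h3 := hC s ⟨by linarith, by linarith⟩
  rw [Real.norm_eq_abs] at h3
  linarith [le_abs_self C]

/-! ## Algebra -/

private lemma q2_cont {n j : ℕ} {s : E n → Tn n j} (hs : Continuous s) :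
    Continuous (fun x => q2 (s x)) := by
  unfold q2 ipt
  refine Continuous.div_const (continuous_finsetSum _ fun I _ => ?_) _
  exact ((continuous_apply I).comp hs).mul ((continuous_apply I).comp hs)

private lemma dsq {n : ℕ} {g : E n → Bl n} {x : E n} {f : Fin n → E n} (hf : Onb g x f)
    (d : Dl n) {r : ℝ} (hr : 0 ≤ r) (hd : ∀ v, |d v| ≤ r * nr g x v) :
    ∑ a, d (f a) ^ 2 ≤ r ^ 2 := by
  set s := ∑ a, d (f a) ^ 2 with hs
  have hs0 : 0 ≤ s := Finset.sum_nonneg fun a _ => sq_nonneg _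
  have h1 : d (∑ a, d (f a) • f a) = s := by
    rw [map_sum, hs]
    refine Finset.sum_congr rfl fun a _ => ?_
    rw [map_smul, smul_eq_mul, sq]
  have h2 : g x (∑ a, d (f a) • f a) (∑ a, d (f a) • f a) = s := by
    have h3 : ∀ b, g x (∑ a, d (f a) • f a) (f b) = d (f b) := by
      intro b
      rw [map_sum, _root_.sum_apply]
      have h4 : ∀ a, (g x (d (f a) • f a)) (f b) = if a = b then d (f a) else 0 := by
        intro a
        rw [map_smul, _root_.smul_apply, hf.orth, smul_eq_mul]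
        split_ifs <;> simp
      simp only [h4]
      rw [Finset.sum_ite_eq' Finset.univ b]
      simp
    rw [map_sum, hs]
    refine Finset.sum_congr rfl fun b _ => ?_
    rw [map_smul, h3, smul_eq_mul, sq]
  have h5 := hd (∑ a, d (f a) • f a)
  unfold nr at h5
  rw [h1, h2, abs_of_nonneg hs0] at h5
  have h6 := Real.sq_sqrt hs0
  have h7 := Real.sqrt_nonneg s
  by_contra h8
  rw [not_le] at h8
  have h9 : r < √s := by
    by_contra h10
    rw [not_lt] at h10
    nlinarith
  nlinarith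

private lemma pair_pt {n : ℕ} (hNrm : TNrm) {g : E n → Bl n} {x : E n} {f : Fin n → E n}
    (hf : Onb g x f) {j : ℕ} (t : Tn n (j + 1)) (z : Tn n j) (d : Dl n) (q C R Λ : ℝ)
    (hC : 0 < C) (hR : 0 < R) (hΛ : 0 < Λ) (hq : q2 t ≤ q)
    (hd : ∀ v, |d v| ≤ C / R * nr g x v) :
    |ipt t (wd (fun a => d (f a) • z))| ≤
      √(j + 1) * C * Λ / 2 * q + √(j + 1) * C / (2 * R ^ 2 * Λ) * q2 z := by
  have h7 := (hNrm n (j + 1)).2.2.1 t (wd (fun a => d (f a) • z))
  have h8 := (hNrm n j).2.2.2.2.2.1 (fun a => d (f a)) z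
  have hdd := dsq hf d (r := C / R) (by positivity) hd
  have hn := ((hNrm n (j + 1)).1 t).1
  have ha := ((hNrm n j).1 z).1
  set N := q2 t with hN
  set A := q2 z with hA
  have h9 : q2 (wd (fun a => d (f a) • z)) ≤ (√(j + 1) * (C / R)) ^ 2 * A := by
    refine h8.trans ?_
    rw [mul_pow, Real.sq_sqrt (by positivity)]
    exact mul_le_mul_of_nonneg_right (mul_le_mul_of_nonneg_left hdd (by positivity)) ha
  have h9' : √(q2 (wd (fun a => d (f a) • z))) ≤ √(j + 1) * (C / R) * √A := by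
    refine (Real.sqrt_le_sqrt h9).trans (le_of_eq ?_)
    rw [Real.sqrt_mul (by positivity), Real.sqrt_sq (by positivity)]
  have h10 : √N * √A ≤ (R * Λ * N + A / (R * Λ)) / 2 := by
    have hs1 := Real.sq_sqrt hn
    have hs2 := Real.sq_sqrt ha
    have hRΛ : 0 < R * Λ := mul_pos hR hΛ
    have h11 : 0 ≤ (R * Λ * √N - √A) ^ 2 / (R * Λ) := by positivity
    have h12 : (R * Λ * √N - √A) ^ 2 / (R * Λ) = R * Λ * N - 2 * (√N * √A) + A / (R * Λ) := by
      have h16 : (R * Λ * √N - √A) ^ 2 =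
          (R * Λ) ^ 2 * √N ^ 2 - 2 * (R * Λ) * (√N * √A) + √A ^ 2 := by ring
      rw [h16, hs1, hs2]
      field_simp
    rw [h12] at h11
    linarith
  have h13 : √N * √(q2 (wd (fun a => d (f a) • z))) ≤
      (R * Λ * N + A / (R * Λ)) / 2 * (√(j + 1) * (C / R)) := by
    calc √N * √(q2 (wd (fun a => d (f a) • z)))
        ≤ √N * (√(j + 1) * (C / R) * √A) := mul_le_mul_of_nonneg_left h9' (Real.sqrt_nonneg _)
      _ = (√N * √A) * (√(j + 1) * (C / R)) := by ring
      _ ≤ _ := mul_le_mul_of_nonneg_right h10 (by positivity)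
  have h14 : (R * Λ * N + A / (R * Λ)) / 2 * (√(j + 1) * (C / R)) =
      √(j + 1) * C * Λ / 2 * N + √(j + 1) * C / (2 * R ^ 2 * Λ) * A := by
    field_simp
  rw [h14] at h13
  have h15 : √(j + 1) * C * Λ / 2 * N ≤ √(j + 1) * C * Λ / 2 * q :=
    mul_le_mul_of_nonneg_left hq (by positivity)
  linarith

private lemma tail_lim {n : ℕ} {b Q : E n → ℝ} (hb : Continuous b) (hQ : Integrable Q) :
    Tendsto (fun m : ℝ => ∫ x in {x | m ≤ b x}, Q x) atTop (𝓝 0) := by
  have h := tendsto_setIntegral_of_antitone (μ := (volume : Measure (E n))) (f := Q)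
    (s := fun m : ℝ => {x | m ≤ b x})
    (fun m => (isClosed_le continuous_const hb).measurableSet)
    (fun m m' hm x hx => le_trans hm hx) ⟨0, hQ.integrableOn⟩
  have h2 : (⋂ m : ℝ, {x : E n | m ≤ b x}) = ∅ := by
    ext x
    simp only [mem_iInter, mem_empty_iff_false, iff_false, not_forall]
    obtain ⟨m, hm⟩ := exists_gt (b x)
    exact ⟨m, fun h => absurd (show m ≤ b x from h) (not_le.2 hm)⟩
  rwa [h2, setIntegral_empty] at h

theorem hLbd : StDlv → TNrm → TPaj → SGrw → SHfl → SLbd := by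
  intro hDlv hNrm hPaj hGrw hHfl n m g Γ F G hg hΓ hF p b β κ₀ r0 hB hL M P hP K δ hK hδ hlow Λ
  have hv : Continuous (vol g) := (hDlv n g Γ hg hΓ).1.continuous
  have hv0 : ∀ x, 0 < vol g x := (hDlv n g Γ hg hΓ).2.1
  have hq0 : ∀ {j : ℕ} (t : Tn n j), 0 ≤ q2 t := fun {j} t => ((hNrm n j).1 t).1
  obtain ⟨hcp, hcA, -⟩ := hGrw n g Γ hg p b β κ₀ r0 hB hL
  have hβ : Continuous β := hL.smooth.continuous
  rcases le_or_gt Λ 0 with hΛ0 | hΛ0
  · refine ⟨1, le_refl 1, fun R hR c hc u hu => ?_⟩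
    have h1 : Λ * R ^ 2 ≤ 0 := mul_nonpos_of_nonpos_of_nonneg hΛ0 (sq_nonneg R)
    refine h1.trans (integral_nonneg fun x => mul_nonneg (hq0 _) (hv0 x).le)
  obtain ⟨C₁, hC₁, hd1⟩ := dff_bound
  set C₀ : ℝ := 2 * C₁ with hC₀def
  have hC₀ : 0 < C₀ := by positivity
  set C : ℝ := √((m : ℕ) + 1) * C₀ with hCdef
  have hC : 0 < C := by positivity
  set Q : E n → ℝ := fun x => (∑ i, q2 (P i x)) * vol g x with hQdef
  have hQi : Integrable Q := by
    have h : Q = fun x => ∑ i, q2 (P i x) * vol g x := by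
      funext x
      exact Finset.sum_mul _ _ _
    rw [h]
    exact integrable_finsetSum _ fun i _ => (hP i).int
  have hQ0 : ∀ x, 0 ≤ Q x := fun x =>
    mul_nonneg (Finset.sum_nonneg fun i _ => hq0 (P i x)) (hv0 x).le
  set μ : ℝ := C * Λ / δ with hμdef
  have hμ : 0 < μ := by positivity
  have hev : ∀ᶠ r : ℝ in atTop, (∫ x in {x | r ≤ β x}, Q x) ≤ δ / (C * μ) :=
    (tail_lim hβ hQi).eventually (ge_mem_nhds (by positivity))
  obtain ⟨r1, hr1⟩ := Filter.eventually_atTop.1 hev
  obtain ⟨B, hBK⟩ : ∃ B, ∀ x ∈ K, β x ≤ B := by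
    obtain ⟨B, hB'⟩ := (hK.image hβ).bddAbove
    exact ⟨B, fun x hx => hB' ⟨x, hx, rfl⟩⟩
  refine ⟨max 1 (max (2 * r1) (2 * B)), le_max_left _ _, fun R hR c hc u hu => ?_⟩
  have hR1 : 1 ≤ R := (le_max_left _ _).trans hR
  have hRr : r1 ≤ R / 2 := by
    have := (le_max_left (2 * r1) (2 * B)).trans ((le_max_right _ _).trans hR)
    linarith
  have hRB : B ≤ R / 2 := by
    have := (le_max_right (2 * r1) (2 * B)).trans ((le_max_right _ _).trans hR)
    linarith
  have hR0 : 0 < R := by linarith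
  have hmt := hr1 (R / 2) hRr
  obtain ⟨hus, hua, hdu⟩ := hu
  set Pc : E n → Tn n (m + 1) := fun x => ∑ i, c i • P i x with hPc
  have hPcH : Hf g F G Pc := (hHfl n m g Γ F G hg hΓ hF M P hP c).1
  have hPcq : ∀ x, q2 (Pc x) ≤ ∑ i, q2 (P i x) := by
    intro x
    have h := (hNrm n (m + 1)).2.2.2.2.1 _ c (fun i => P i x)
    rwa [hc, one_mul] at h
  -- the cut-off function
  set χ : E n → ℝ := fun x => ff (β x / R) with hχdef
  have hχs : ContDiff ℝ ∞ χ := ff_smooth.comp (hL.smooth.div_const R)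
  have hχc : HasCompactSupport χ := by
    refine HasCompactSupport.intro (hcp R) fun x hx => ?_
    have h : R < β x := not_le.1 hx
    refine ff_zero ?_
    rw [le_div_iff₀ hR0]
    linarith
  have hχd : ∀ x v, fderiv ℝ χ x v = deriv ff (β x / R) * (fderiv ℝ β x v / R) := by
    intro x v
    have h1 : HasDerivAt ff (deriv ff (β x / R)) (β x / R) :=
      (ff_smooth.differentiable (by simp) _).hasDerivAt
    have h2 : HasFDerivAt (fun y => β y / R) (R⁻¹ • fderiv ℝ β x) x := by
      have h3 := ((hL.smooth.differentiable (by simp) x).hasFDerivAt).const_mul R⁻¹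
      refine h3.congr_of_eventuallyEq (Eventually.of_forall fun y => ?_)
      show β y / R = R⁻¹ * β y
      rw [div_eq_inv_mul]
    have h4 := h1.comp_hasFDerivAt x h2
    have h5 : fderiv ℝ χ x = deriv ff (β x / R) • (R⁻¹ • fderiv ℝ β x) := h4.fderiv
    rw [h5]
    show deriv ff (β x / R) * (R⁻¹ * fderiv ℝ β x v) = _
    ring
  have hχb : ∀ x v, |fderiv ℝ χ x v| ≤ C₀ / R * nr g x v := by
    intro x v
    have hn : 0 ≤ nr g x v := Real.sqrt_nonneg _
    rw [hχd, abs_mul, abs_div, abs_of_pos hR0]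
    calc |deriv ff (β x / R)| * (|fderiv ℝ β x v| / R) ≤ C₁ * ((2 * nr g x v) / R) := by
          refine mul_le_mul (hd1 _) (div_le_div_of_nonneg_right (hL.grad x v) hR0.le) (by positivity) hC₁.le
      _ = _ := by rw [hC₀def]; ring
  have hχz1 : ∀ x, β x ≤ R / 2 → χ x = 1 ∧ fderiv ℝ χ x = 0 := by
    intro x hx
    have h : β x / R ≤ 1 / 2 := by
      rw [div_le_iff₀ hR0]
      linarith
    refine ⟨ff_one (by linarith), ?_⟩
    ext v
    rw [hχd, dff_left (by linarith), zero_mul]
    rfl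
  have hχz2 : ∀ x, R ≤ β x → fderiv ℝ χ x = 0 := by
    intro x hx
    have h : 1 ≤ β x / R := by
      rw [le_div_iff₀ hR0]
      linarith
    ext v
    rw [hχd, dff_right (by linarith), zero_mul]
    rfl
  have hpai := hPaj n m g Γ F G hg hΓ hF Pc hPcH u hus hdu χ ⟨hχs, hχc⟩
  -- the estimate of the pairing
  set A : Set (E n) := An β (R / 2) R with hAdef
  have hAc : IsCompact A := hcA _ _
  have hAm : MeasurableSet A := hAc.isClosed.measurableSet
  have huc : Continuous (fun x => q2 (u x)) := q2_cont hus.continuous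
  have iA : IntegrableOn (fun x => q2 (u x) * vol g x) A :=
    (huc.mul hv).continuousOn.integrableOn_compact hAc
  set H : E n → ℝ := fun x => C * μ / 2 * ({x | R / 2 ≤ β x} : Set (E n)).indicator Q x +
    C / (2 * R ^ 2 * μ) * A.indicator (fun x => q2 (u x) * vol g x) x with hH
  have hmc : MeasurableSet {x | R / 2 ≤ β x} := (isClosed_le continuous_const hβ).measurableSet
  have i1 : Integrable (({x | R / 2 ≤ β x} : Set (E n)).indicator Q) := hQi.indicator hmc
  have i2 : Integrable (A.indicator (fun x => q2 (u x) * vol g x)) :=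
    (integrable_indicator_iff hAm).2 iA
  have hGi : Integrable H := (i1.const_mul _).add (i2.const_mul _)
  have hGe : ∫ x, H x = C * μ / 2 * (∫ x in {x | R / 2 ≤ β x}, Q x) +
      C / (2 * R ^ 2 * μ) * ∫ x in A, q2 (u x) * vol g x := by
    rw [hH, integral_add (i1.const_mul _) (i2.const_mul _), integral_const_mul,
      integral_const_mul, integral_indicator hmc, integral_indicator hAm]
  have hpt : ∀ x, ‖ipt (Pc x) (wd (fun a => fderiv ℝ χ x (F a x) • u x)) * vol g x‖ ≤ H x := by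
    intro x
    have hz1 : 0 ≤ C * μ / 2 * ({x | R / 2 ≤ β x} : Set (E n)).indicator Q x :=
      mul_nonneg (by positivity) (indicator_nonneg (fun x _ => hQ0 x) x)
    have hz2 : 0 ≤ C / (2 * R ^ 2 * μ) * A.indicator (fun x => q2 (u x) * vol g x) x :=
      mul_nonneg (by positivity) (indicator_nonneg
        (fun x _ => mul_nonneg (hq0 _) (hv0 x).le) x)
    have hzero : fderiv ℝ χ x = 0 →
        ‖ipt (Pc x) (wd (fun a => fderiv ℝ χ x (F a x) • u x)) * vol g x‖ ≤ H x := by
      intro h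
      have h1 : ipt (Pc x) (wd (fun a => fderiv ℝ χ x (F a x) • u x)) = 0 := by
        rw [h]
        unfold ipt wd
        simp
      rw [h1, zero_mul, norm_zero]
      exact add_nonneg hz1 hz2
    rcases le_or_gt (β x) (R / 2) with h1 | h1
    · exact hzero (hχz1 x h1).2
    rcases le_or_gt R (β x) with h2 | h2
    · exact hzero (hχz2 x h2)
    have m1 : x ∈ ({x | R / 2 ≤ β x} : Set (E n)) := show R / 2 ≤ β x from h1.le
    have m2 : x ∈ A := ⟨h1.le, h2.le⟩
    have h3 := pair_pt hNrm (hF.onb x) (Pc x) (u x) (fderiv ℝ χ x) _ C₀ R μ hC₀ hR0 hμ (hPcq x)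
      (hχb x)
    rw [← hCdef] at h3
    rw [norm_mul, Real.norm_eq_abs, Real.norm_eq_abs, abs_of_pos (hv0 x)]
    show _ ≤ C * μ / 2 * ({x | R / 2 ≤ β x} : Set (E n)).indicator Q x +
      C / (2 * R ^ 2 * μ) * A.indicator (fun x => q2 (u x) * vol g x) x
    rw [indicator_of_mem m1, indicator_of_mem m2]
    refine (mul_le_mul_of_nonneg_right h3 (hv0 x).le).trans (le_of_eq ?_)
    show _ = C * μ / 2 * ((∑ i, q2 (P i x)) * vol g x) +
      C / (2 * R ^ 2 * μ) * (q2 (u x) * vol g x)
    ring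
  have hmain : ∫ x, χ x * q2 (Pc x) * vol g x ≤
      C * μ / 2 * (∫ x in {x | R / 2 ≤ β x}, Q x) +
      C / (2 * R ^ 2 * μ) * ∫ x in A, q2 (u x) * vol g x := by
    rw [hpai, ← hGe]
    refine (neg_le_abs _).trans ?_
    exact norm_integral_le_of_norm_le hGi (Filter.Eventually.of_forall hpt)
  -- conclusion
  have hqc : Continuous (fun x => q2 (Pc x)) := q2_cont hPcH.smooth.continuous
  have hfin : ∫ x in K, q2 (Pc x) * vol g x ≤ ∫ x, χ x * q2 (Pc x) * vol g x := by
    rw [← integral_indicator hK.measurableSet]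
    refine integral_mono ?_ ?_ fun x => ?_
    · exact (integrable_indicator_iff hK.measurableSet).2
        ((hqc.mul hv).continuousOn.integrableOn_compact hK)
    · refine Continuous.integrable_of_hasCompactSupport
        ((hχs.continuous.mul hqc).mul hv) ?_
      exact (hχc.mul_right).mul_right
    · by_cases hx : x ∈ K
      · have h1 : β x ≤ R / 2 := (hBK x hx).trans hRB
        rw [indicator_of_mem hx]
        show q2 (Pc x) * vol g x ≤ χ x * q2 (Pc x) * vol g x
        rw [(hχz1 x h1).1, one_mul]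
      · rw [indicator_of_notMem hx]
        have h1 := hq0 (Pc x)
        have h2 : 0 ≤ χ x := ff_nonneg _
        have h3 := (hv0 x).le
        positivity
  have h1 : C * μ / 2 * (∫ x in {x | R / 2 ≤ β x}, Q x) ≤ δ / 2 := by
    calc C * μ / 2 * (∫ x in {x | R / 2 ≤ β x}, Q x) ≤ C * μ / 2 * (δ / (C * μ)) :=
          mul_le_mul_of_nonneg_left hmt (by positivity)
      _ = δ / 2 := by field_simp
  have hlo := hlow c hc
  have h2 : δ / 2 ≤ C / (2 * R ^ 2 * μ) * ∫ x in A, q2 (u x) * vol g x := by linarith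
  have h3 : C / (2 * R ^ 2 * μ) = δ / (2 * (Λ * R ^ 2)) := by
    rw [hμdef]
    field_simp
  rw [h3, div_mul_eq_mul_div, div_le_div_iff₀ (by norm_num) (by positivity)] at h2
  have h4 : δ * (Λ * R ^ 2) ≤ δ * ∫ x in A, q2 (u x) * vol g x := by linarith
  exact le_of_mul_le_mul_left h4 hδ

end Pool.Agent.Helper7.QD
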